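import Pool.Agent.Helper70.MM.Goals

open MeasureTheory Set Metric
open scoped ENNReal
open Pool.Agent.Results.MP_91ee6f_gt

namespace Pool.Agent.Helper3.MM

theorem box : Pool.Agent.Helper70.MM.BOX := by
  intro n a L hL
  set s : ℝ := Real.sqrt n with hs
  have hs0 : 0 ≤ s := Real.sqrt_nonneg _
  have hss : s ^ 2 = n := Real.sq_sqrt (Nat.cast_nonneg n)
  have hLs : 0 ≤ L * s := mul_nonneg hL hs0
  set M : ℕ := ⌊L * s⌋₊ with hM
  let cell : (Fin n → Fin (M + 1)) → Set (En n) :=
    fun k => {x | ∀ i, ⌊(x i - a) * s⌋ = ((k i : ℕ) : ℤ)}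
  have hM1 : (0 : ℕ) < M + 1 := Nat.succ_pos M
  refine ⟨(M + 1) ^ n, fun j => cell (finFunctionFinEquiv.symm j), Nat.pow_pos hM1, ?_, ?_, ?_, ?_⟩
  · intro x hx
    have h : ∀ i, ∃ m : Fin (M + 1), ⌊(x i - a) * s⌋ = ((m : ℕ) : ℤ) := by
      intro i
      obtain ⟨h1, h2⟩ := hx i
      have h3 : 0 ≤ (x i - a) * s := mul_nonneg (by linarith) hs0
      have h4 : (x i - a) * s ≤ L * s := mul_le_mul_of_nonneg_right (by linarith) hs0
      refine ⟨⟨⌊(x i - a) * s⌋₊, Nat.lt_succ_of_le (Nat.floor_le_floor h4)⟩, ?_⟩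
      exact (Int.natCast_floor_eq_floor h3).symm
    choose k hk using h
    refine mem_iUnion.2 ⟨finFunctionFinEquiv k, ?_⟩
    simp only [Equiv.symm_apply_apply]
    exact hk
  · intro j
    have : cell (finFunctionFinEquiv.symm j) =
        ⋂ i, {x : En n | ⌊(x i - a) * s⌋ = (((finFunctionFinEquiv.symm j) i : ℕ) : ℤ)} := by
      ext x
      simp [cell]
    simp only [this]
    refine MeasurableSet.iInter fun i => ?_
    have hm : Measurable fun x : En n => ⌊(x i - a) * s⌋ := by
      have : Measurable fun x : En n => (x i - a) * s := by fun_prop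
      exact Int.measurable_floor.comp this
    exact hm (measurableSet_singleton _)
  · intro j x hx y hy
    have h1 : ∀ i, (x i - y i) ^ 2 * n ≤ 1 := by
      intro i
      have h2 : ⌊(x i - a) * s⌋ = ⌊(y i - a) * s⌋ := (hx i).trans (hy i).symm
      have h3 : |(x i - a) * s - (y i - a) * s| < 1 := Int.abs_sub_lt_one_of_floor_eq_floor h2
      have h4 : ((x i - y i) * s) ^ 2 ≤ 1 := by
        have h5 : (x i - a) * s - (y i - a) * s = (x i - y i) * s := by ring
        rw [h5] at h3
        have := sq_abs ((x i - y i) * s)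
        have h6 : |(x i - y i) * s| ^ 2 ≤ 1 := by
          have := abs_nonneg ((x i - y i) * s)
          nlinarith
        rw [← this]
        exact h6
      rw [mul_pow, hss] at h4
      exact h4
    have h2 : ∑ i, (x i - y i) ^ 2 ≤ 1 := by
      rcases Nat.eq_zero_or_pos n with h0 | h0
      · subst h0
        simp
      · have hn : (0 : ℝ) < n := by exact_mod_cast h0
        calc ∑ i, (x i - y i) ^ 2 ≤ ∑ _i : Fin n, 1 / (n : ℝ) := by
              refine Finset.sum_le_sum fun i _ => ?_
              rw [le_div_iff₀ hn]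
              exact h1 i
          _ = 1 := by
              rw [Finset.sum_const, Finset.card_univ, Fintype.card_fin, nsmul_eq_mul]
              field_simp
    rw [EuclideanSpace.dist_eq]
    have h3 : ∑ i, dist (x.ofLp i) (y.ofLp i) ^ 2 = ∑ i, (x i - y i) ^ 2 := by
      refine Finset.sum_congr rfl fun i _ => ?_
      rw [Real.dist_eq, sq_abs]
    rw [h3]
    calc Real.sqrt (∑ i, (x i - y i) ^ 2) ≤ Real.sqrt 1 := Real.sqrt_le_sqrt h2
      _ = 1 := Real.sqrt_one
  · push_cast
    refine pow_le_pow_left₀ (by positivity) ?_ n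
    have := Nat.floor_le hLs
    linarith [mul_comm L s]

end Pool.Agent.Helper3.MM
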